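import Pool.Agent.L5helper60.KC.Defs

/-!
# The parse trees are cut where the path leaves a level of the potential
-/

set_option autoImplicit false
set_option linter.unusedSectionVars false

open Finset

namespace Pool.Agent.L5helper60.KC

open Pool.Agent.L5helper60.DN Pool.Agent.L5helper87.RK

variable {V : Type} {q : ℕ} [DecidableEq V]

/-- the stop at the gate -/
noncomputable def e0 (P : SCirc V q) (S : Finset V) (τ : ℕ) (D : Finset V)
    (t : Option (Fin P.size)) (x : Fin P.size) : ℝ :=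
  if τ ≤ phi P D x then src P S t x else 0

/-- the exit to the left or to the larger input -/
noncomputable def e1 (P : SCirc V q) (S : Finset V) (τ : ℕ) (D : Finset V)
    (t : Option (Fin P.size)) (x : Fin P.size) : ℝ :=
  if τ ≤ phi P D x then
    (match P.gate x with
    | .leaf _ _ => 0
    | .add a _ => if τ ≤ phi P D a then 0 else X P D S t a
    | .mul a b => if τ ≤ phi P D (hv P D a b) then 0 else
        P.val S (lg P D a b) * X P D S t (hv P D a b)) else 0

/-- the exit to the right -/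
noncomputable def e2 (P : SCirc V q) (S : Finset V) (τ : ℕ) (D : Finset V)
    (t : Option (Fin P.size)) (x : Fin P.size) : ℝ :=
  if τ ≤ phi P D x then
    (match P.gate x with
    | .leaf _ _ => 0
    | .add _ b => if τ ≤ phi P D b then 0 else X P D S t b
    | .mul _ _ => 0) else 0

theorem cnt_left {P : SCirc V q} {i a b : Fin P.size} (h : P.gate i = .add a b) (v : V) :
    P.cnt v a ≤ P.cnt v i := by
  rw [cnt_add h]
  omega

theorem cnt_right {P : SCirc V q} {i a b : Fin P.size} (h : P.gate i = .add a b) (v : V) :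
    P.cnt v b ≤ P.cnt v i := by
  rw [cnt_add h]
  omega

theorem cnt_hv {P : SCirc V q} {D : Finset V} {i a b : Fin P.size} (h : P.gate i = .mul a b) (v : V) :
    P.cnt v (hv P D a b) ≤ P.cnt v i := by
  rw [cnt_hl (D := D) h]
  omega

theorem sum_delta {n : ℕ} (E : Fin n → ℝ) (u : Fin n) :
    ∑ x, (if u = x then (1 : ℝ) else 0) * E x = E u := by
  rw [Finset.sum_eq_single u]
  · rw [if_pos rfl, one_mul]
  · intro b _ hb
    rw [if_neg (Ne.symm hb), zero_mul]
  · intro h
    exact absurd (mem_univ u) h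

/-- **the exit formula** -/
theorem exit_formula (P : SCirc V q) (S : Finset V) (τ : ℕ) (D : Finset V)
    (t : Option (Fin P.size)) (u : Fin P.size) :
    ∑ x, X P D S (some x) u * (e0 P S τ D t x + e1 P S τ D t x + e2 P S τ D t x) =
      if τ ≤ phi P D u then X P D S t u else 0 := by
  set E : Fin P.size → ℝ := fun x => e0 P S τ D t x + e1 P S τ D t x + e2 P S τ D t x with hE
  show ∑ x, X P D S (some x) u * E x = _
  refine WellFoundedLT.induction (motive := fun u => ∑ x, X P D S (some x) u * E x =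
    if τ ≤ phi P D u then X P D S t u else 0) u fun u ih => ?_
  rcases h : P.gate u with ⟨w, l⟩ | ⟨a, b⟩ | ⟨a, b⟩
  · have h1 : ∀ x, X P D S (some x) u = if u = x then (1 : ℝ) else 0 := fun x => X_leaf h
    rw [Finset.sum_congr rfl fun x _ => by rw [h1 x], sum_delta E u, X_leaf h]
    show e0 P S τ D t u + e1 P S τ D t u + e2 P S τ D t u = _
    unfold e0 e1 e2
    rw [h]
    split_ifs <;> simp
  · have h1 : ∀ x, X P D S (some x) u * E x = (if u = x then (1 : ℝ) else 0) * E x +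
        (X P D S (some x) a * E x + X P D S (some x) b * E x) := by
      intro x
      rw [X_add h]
      show ((if u = x then (1 : ℝ) else 0) + _) * _ = _
      ring
    rw [Finset.sum_congr rfl fun x _ => h1 x, Finset.sum_add_distrib, Finset.sum_add_distrib,
      sum_delta E u, ih a (P.add_lt u a b h).1, ih b (P.add_lt u a b h).2, X_add h]
    show e0 P S τ D t u + e1 P S τ D t u + e2 P S τ D t u + _ = _
    have ha := phi_mono (D := D) (cnt_left h)
    have hb := phi_mono (D := D) (cnt_right h)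
    unfold e0 e1 e2
    rw [h]
    by_cases hu : τ ≤ phi P D u
    · simp only [if_pos hu]
      by_cases h2 : τ ≤ phi P D a <;> by_cases h3 : τ ≤ phi P D b <;>
        simp only [h2, h3, if_true, if_false] <;> ring
    · have h2 : ¬ τ ≤ phi P D a := by omega
      have h3 : ¬ τ ≤ phi P D b := by omega
      simp only [if_neg hu, if_neg h2, if_neg h3]
      norm_num
  · have h1 : ∀ x, X P D S (some x) u * E x = (if u = x then (1 : ℝ) else 0) * E x +
        P.val S (lg P D a b) * (X P D S (some x) (hv P D a b) * E x) := by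
      intro x
      rw [X_mul h]
      show ((if u = x then (1 : ℝ) else 0) + _) * _ = _
      ring
    rw [Finset.sum_congr rfl fun x _ => h1 x, Finset.sum_add_distrib, ← Finset.mul_sum,
      sum_delta E u, ih _ (hv_lt h), X_mul h]
    show e0 P S τ D t u + e1 P S τ D t u + e2 P S τ D t u + _ = _
    have ha := phi_mono (D := D) (cnt_hv (D := D) h)
    unfold e0 e1 e2
    rw [h]
    by_cases hu : τ ≤ phi P D u
    · simp only [if_pos hu]
      by_cases h2 : τ ≤ phi P D (hv P D a b) <;>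
        simp only [h2, if_true, if_false] <;> ring
    · have h2 : ¬ τ ≤ phi P D (hv P D a b) := by omega
      simp only [if_neg hu, if_neg h2]
      norm_num

/-! ### The cost -/

/-- the number of the factors for an item with the potential `Φ`, without or with target -/
def cost (θ : ℕ) (b : Bool) (Φ : ℕ) : ℕ :=
  if Φ ≤ θ then 1 else if b then 4 * Φ / θ + 1 else 4 * Φ / θ - 1

theorem cost_pos (θ : ℕ) (hθ : 1 ≤ θ) (b : Bool) (Φ : ℕ) : 1 ≤ cost θ b Φ := by
  unfold cost
  split_ifs with h h2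
  · exact le_rfl
  · exact Nat.le_add_left _ _
  · have : 4 ≤ 4 * Φ / θ := by
      rw [Nat.le_div_iff_mul_le hθ]
      omega
    omega

theorem div4 {θ Φ : ℕ} (hθ : 1 ≤ θ) (h : θ < Φ) : 4 ≤ 4 * Φ / θ := by
  rw [Nat.le_div_iff_mul_le hθ]
  omega

theorem div_step {θ Φ Φ' : ℕ} (hθ : 1 ≤ θ) (h : Φ' + θ < Φ) : 4 * Φ' / θ + 4 ≤ 4 * Φ / θ := by
  have h1 : (4 * Φ' + 4 * θ) / θ = 4 * Φ' / θ + 4 := Nat.add_mul_div_right _ _ hθ
  rw [← h1]
  exact Nat.div_le_div_right (by omega)

theorem div_half {θ Φ Φ' : ℕ} (hθ : 1 ≤ θ) (h : 2 * Φ' ≤ Φ) (h2 : θ < Φ) :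
    4 * Φ' / θ + 2 ≤ 4 * Φ / θ := by
  have h1 : (4 * Φ' + 2 * θ) / θ = 4 * Φ' / θ + 2 := Nat.add_mul_div_right _ _ hθ
  rw [← h1]
  exact Nat.div_le_div_right (by omega)

theorem div_add {θ Φ Φ1 Φ2 : ℕ} (h : Φ1 + Φ2 ≤ Φ) : 4 * Φ1 / θ + 4 * Φ2 / θ ≤ 4 * Φ / θ :=
  Nat.div_add_div_le_add_div.trans (Nat.div_le_div_right (by omega))

theorem cost_one {θ Φ Φ' : ℕ} (hθ : 1 ≤ θ) (b : Bool) (h : Φ' + θ < Φ) :
    cost θ b Φ' + 1 ≤ cost θ b Φ := by
  have h1 := div_step hθ h
  have h2 := div4 hθ (show θ < Φ by omega)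
  unfold cost
  rw [if_neg (show ¬ Φ ≤ θ by omega)]
  by_cases h3 : Φ' ≤ θ
  · rw [if_pos h3]
    cases b <;> simp <;> omega
  · have h4 := div4 hθ (show θ < Φ' by omega)
    rw [if_neg h3]
    cases b <;> simp <;> omega

theorem cost_leaf {θ Φ Φ' : ℕ} (hθ : 1 ≤ θ) (b : Bool) (h : θ < Φ) (h' : Φ' ≤ θ) :
    cost θ b Φ' + 1 ≤ cost θ b Φ := by
  have h2 := div4 hθ h
  unfold cost
  rw [if_neg (show ¬ Φ ≤ θ by omega), if_pos h']
  cases b <;> simp <;> omega

theorem cost_two {θ Φ Φ1 Φ2 : ℕ} (hθ : 1 ≤ θ) (b : Bool) (h : Φ2 + θ < Φ) (h12 : Φ1 + Φ2 ≤ Φ)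
    (hb : b = false → 2 * Φ1 ≤ Φ) : cost θ false Φ1 + cost θ b Φ2 + 1 ≤ cost θ b Φ := by
  have h1 := div_step hθ h
  have h2 := div4 hθ (show θ < Φ by omega)
  have h3 := div_add (θ := θ) h12
  have h4 : b = false → 4 * Φ1 / θ + 2 ≤ 4 * Φ / θ := fun hb' => div_half hθ (hb hb') (by omega)
  have h7 : ¬ Φ1 ≤ θ → 4 ≤ 4 * Φ1 / θ := fun h5 => div4 hθ (by omega)
  have h8 : ¬ Φ2 ≤ θ → 4 ≤ 4 * Φ2 / θ := fun h5 => div4 hθ (by omega)
  unfold cost
  rw [if_neg (show ¬ Φ ≤ θ by omega)]
  generalize 4 * Φ / θ = q at *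
  generalize 4 * Φ1 / θ = q1 at *
  generalize 4 * Φ2 / θ = q2 at *
  by_cases h5 : Φ1 ≤ θ <;> by_cases h6 : Φ2 ≤ θ
  · rw [if_pos h5, if_pos h6]
    cases b
    · show 1 + 1 + 1 ≤ q - 1
      omega
    · show 1 + 1 + 1 ≤ q + 1
      omega
  · have := h8 h6
    rw [if_pos h5, if_neg h6]
    cases b
    · show 1 + (q2 - 1) + 1 ≤ q - 1
      omega
    · show 1 + (q2 + 1) + 1 ≤ q + 1
      omega
  · have := h7 h5
    rw [if_neg h5, if_pos h6]
    cases b
    · have := h4 rfl
      show (q1 - 1) + 1 + 1 ≤ q - 1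
      omega
    · show (q1 - 1) + 1 + 1 ≤ q + 1
      omega
  · have := h7 h5
    have := h8 h6
    rw [if_neg h5, if_neg h6]
    cases b
    · show (q1 - 1) + (q2 - 1) + 1 ≤ q - 1
      omega
    · show (q1 - 1) + (q2 + 1) + 1 ≤ q + 1
      omega

end Pool.Agent.L5helper60.KC
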