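import Pool.Agent.L5helper60.KC.Cut

/-!
# The value of a circuit as a sum of products of functions of few vertices
-/

set_option autoImplicit false
set_option linter.unusedSectionVars false

open Finset

namespace Pool.Agent.L5helper60.KC

open Pool.Agent.L5helper60.DN Pool.Agent.L5helper87.RK

variable {V : Type} {q : ℕ} [DecidableEq V] [Fintype V]

/-- the factors: a gate with or without target -/
abbrev It (P : SCirc V q) : Type := Fin P.size × Option (Fin P.size)

/-- the number of the leaves with `v` between the gate and the target -/
noncomputable def mu (P : SCirc V q) (h : It P) (v : V) : ℕ := P.cnt v h.1 - cT P v h.2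

/-- the target can be below the gate -/
def Good (P : SCirc V q) (h : It P) : Prop := ∀ v, cT P v h.2 ≤ P.cnt v h.1

/-- the potential of a factor -/
noncomputable def pot (P : SCirc V q) (D : Finset V) (h : It P) : ℕ := ∑ v ∈ D, mu P h v

/-- the cost of a factor -/
noncomputable def cs (P : SCirc V q) (D : Finset V) (θ : ℕ) (h : It P) : ℕ :=
  cost θ h.2.isSome (pot P D h)

/-- the product of the values of the factors -/
noncomputable def pr (P : SCirc V q) (D : Finset V) (l : List (It P)) (S : Finset V) : ℝ :=
  (l.map fun h => X P D S h.2 h.1).prod

/-- the sum of the numbers of the leaves -/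
noncomputable def mL (P : SCirc V q) (l : List (It P)) (v : V) : ℕ := (l.map fun h => mu P h v).sum

/-- the sum of the costs -/
noncomputable def cL (P : SCirc V q) (D : Finset V) (θ : ℕ) (l : List (It P)) : ℕ :=
  (l.map (cs P D θ)).sum

/-- the data which are needed for a term -/
def Dt (P : SCirc V q) (D : Finset V) (θ : ℕ) (μ : V → ℕ) (c : ℕ) (w : Finset V → ℝ) : Prop :=
  ∃ (f' G0 : Finset V → ℝ) (Y0 : Finset V) (μ' : V → ℕ),
    HasDecN (Fin P.size × Fin 3) D θ μ' c f' ∧
    (∀ S, 0 ≤ G0 S) ∧ Y0 ⊆ D ∧ Y0.card ≤ θ ∧
    (∀ v, (if v ∈ Y0 then 1 else 0) + μ' v ≤ μ v) ∧
    (∀ S S', (∀ v, (v ∈ D → v ∈ Y0) → (v ∈ S ↔ v ∈ S')) → G0 S = G0 S') ∧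
    ∀ S, w S = G0 S * f' S

theorem dt_zero (P : SCirc V q) (D : Finset V) (θ : ℕ) (μ : V → ℕ) (c : ℕ) (w : Finset V → ℝ)
    (h : ∀ S, w S = 0) : Dt P D θ μ c w := by
  refine ⟨fun _ => 0, fun _ => 0, ∅, fun _ => 0, hasDecN_zero _ _ _ _, fun _ => le_rfl,
    empty_subset _, by simp, fun v => by simp, fun _ _ _ => rfl, fun S => by rw [h S]; norm_num⟩

theorem dt_piece (P : SCirc V q) (D : Finset V) (θ : ℕ) (μ : V → ℕ) (c : ℕ) (w : Finset V → ℝ)
    (p : It P) (hp : Good P p) (hpot : pot P D p ≤ θ) (l : List (It P))
    (hl : HasDecN (Fin P.size × Fin 3) D θ (mL P l) c (pr P D l))
    (hμ : ∀ v, mu P p v + mL P l v ≤ μ v)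
    (h : ∀ S, w S = X P D S p.2 p.1 * pr P D l S) : Dt P D θ μ c w := by
  refine ⟨pr P D l, fun S => X P D S p.2 p.1, D.filter fun v => 1 ≤ mu P p v, mL P l, hl,
    fun S => X_nonneg _ _ _ _ _, filter_subset _ _, ?_, fun v => ?_, fun S S' hS => ?_, h⟩
  · refine le_trans ?_ hpot
    rw [card_filter]
    refine Finset.sum_le_sum fun v _ => ?_
    split_ifs with h1
    · exact h1
    · exact Nat.zero_le _
  · refine le_trans (Nat.add_le_add_right ?_ _) (hμ v)
    split_ifs with h1
    · exact (mem_filter.1 h1).2
    · exact Nat.zero_le _
  · refine X_congr P D S S' p.2 p.1 fun v hv => hS v fun hD => mem_filter.2 ⟨hD, ?_⟩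
    unfold mu
    omega

theorem pr_cons (P : SCirc V q) (D : Finset V) (h : It P) (l : List (It P)) (S : Finset V) :
    pr P D (h :: l) S = X P D S h.2 h.1 * pr P D l S := by
  unfold pr
  rw [List.map_cons, List.prod_cons]

theorem mL_cons (P : SCirc V q) (h : It P) (l : List (It P)) (v : V) :
    mL P (h :: l) v = mu P h v + mL P l v := by
  unfold mL
  rw [List.map_cons, List.sum_cons]

theorem cL_cons (P : SCirc V q) (D : Finset V) (θ : ℕ) (h : It P) (l : List (It P)) :
    cL P D θ (h :: l) = cs P D θ h + cL P D θ l := by
  unfold cL
  rw [List.map_cons, List.sum_cons]

theorem pot_eq {P : SCirc V q} {D : Finset V} {h : It P} (hg : Good P h) :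
    pot P D h + ∑ v ∈ D, cT P v h.2 = phi P D h.1 := by
  unfold pot phi
  rw [← Finset.sum_add_distrib]
  refine Finset.sum_congr rfl fun v _ => ?_
  unfold mu
  exact Nat.sub_add_cancel (hg v)

theorem good_none (P : SCirc V q) (u : Fin P.size) : Good P (u, none) := fun _ => Nat.zero_le _

theorem not_good {P : SCirc V q} {D : Finset V} {h : It P} (hg : ¬ Good P h) (S : Finset V) :
    X P D S h.2 h.1 = 0 := by
  by_contra hne
  exact hg fun v => X_ne P D S h.2 v h.1 hne

/-- **The decomposition of a product of factors.** -/
theorem dec_list (P : SCirc V q) (D : Finset V) (θ : ℕ) (hθ : 1 ≤ θ) (hq : q ≤ θ) (o : Fin P.size) : ∀ (c : ℕ)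
    (l : List (It P)), (∀ h ∈ l, Good P h) → cL P D θ l ≤ c →
    HasDecN (Fin P.size × Fin 3) D θ (mL P l) c (pr P D l) := by
  classical
  have : Inhabited (Fin P.size × Fin 3) := ⟨(o, 0)⟩
  intro c
  induction c with
  | zero =>
    intro l hg hc
    rcases l with _ | ⟨h, l⟩
    · exact hasDecN_const _ D θ 0 _ (fun S => zero_le_one) fun _ _ _ => rfl
    · exfalso
      have := cost_pos θ hθ h.2.isSome (pot P D h)
      rw [cL_cons] at hc
      unfold cs at hc
      omega
  | succ c ih =>
    intro l hg hc
    rcases l with _ | ⟨h, l⟩
    · exact hasDecN_const _ D θ (c + 1) _ (fun S => zero_le_one) fun _ _ _ => rfl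
    have hgl : ∀ h' ∈ l, Good P h' := fun h' hh => hg h' (List.mem_cons_of_mem _ hh)
    have hgh : Good P h := hg h List.mem_cons_self
    have hcp := cost_pos θ hθ h.2.isSome (pot P D h)
    rw [cL_cons] at hc
    by_cases hsmall : pot P D h ≤ θ
    · -- the factor is small
      refine combineN (fun a S => if a = (o, 0) then pr P D (h :: l) S else 0) (fun a => ?_)
        fun S => ?_
      · show Dt P D θ (mL P (h :: l)) c (fun S => if a = (o, 0) then pr P D (h :: l) S else 0)
        by_cases ha : a = (o, 0)
        · refine dt_piece P D θ _ c _ h hgh hsmall l (ih l hgl ?_) (fun v => ?_) fun S => ?_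
          · unfold cs at hc
            omega
          · rw [mL_cons]
          · rw [if_pos ha, pr_cons]
        · exact dt_zero P D θ _ c _ fun S => if_neg ha
      · rw [Finset.sum_ite_eq' univ (o, 0) fun _ => pr P D (h :: l) S, if_pos (mem_univ _)]
    · -- the factor is cut
      obtain ⟨u, t⟩ := h
      have hpot := pot_eq (D := D) hgh
      set Φ := pot P D (u, t) with hΦ
      set B := ∑ v ∈ D, cT P v t with hB
      have hpot' : Φ + B = phi P D u := hpot
      have hC : cost θ t.isSome Φ + cL P D θ l ≤ c + 1 := hc
      obtain ⟨τ, hτ⟩ : ∃ τ, τ = phi P D u - θ := ⟨_, rfl⟩
      have hτu : τ ≤ phi P D u := by omega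
      have hτ2 : τ + θ = phi P D u := by omega
      have hexit : ∀ S, X P D S t u = ∑ x, X P D S (some x) u *
          (e0 P S τ D t x + e1 P S τ D t x + e2 P S τ D t x) := by
        intro S
        rw [exit_formula, if_pos hτu]
      -- a term with new factors
      have key : ∀ (x : Fin P.size) (e : Finset V → ℝ) (new : List (It P)),
          τ ≤ phi P D x → (∀ h' ∈ new, Good P h') → (∀ v, cT P v t ≤ P.cnt v x) →
          (∀ v, mL P new v ≤ P.cnt v x - cT P v t) → cL P D θ new + cL P D θ l ≤ c →
          (∀ S, e S = pr P D new S) →
          Dt P D θ (mL P ((u, t) :: l)) c
            (fun S => X P D S (some x) u * e S * pr P D l S) := by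
        intro x e new hx hnew hcx hm hcost he
        by_cases hgx : Good P (u, some x)
        · have h1 := pot_eq (D := D) hgx
          have h2 : ∑ v ∈ D, cT P v (some x) = phi P D x := rfl
          have h3 : phi P D (u, some x).1 = phi P D u := rfl
          refine dt_piece P D θ _ c _ (u, some x) hgx ?_ (new ++ l) (ih (new ++ l) ?_ ?_) ?_ ?_
          · rw [h3] at h1
            simp only [h2] at h1
            omega
          · intro h' hh'
            rcases List.mem_append.1 hh' with hh | hh
            · exact hnew h' hh
            · exact hgl h' hh
          · have : cL P D θ (new ++ l) = cL P D θ new + cL P D θ l := by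
              unfold cL
              rw [List.map_append, List.sum_append]
            rw [this]
            exact hcost
          · intro v
            have e1 : mL P (new ++ l) v = mL P new v + mL P l v := by
              unfold mL
              rw [List.map_append, List.sum_append]
            rw [e1, mL_cons]
            have e2 : mu P (u, some x) v = P.cnt v u - P.cnt v x := rfl
            have e3 : mu P (u, t) v = P.cnt v u - cT P v t := rfl
            have e4 : P.cnt v x ≤ P.cnt v u := hgx v
            have e5 := hcx v
            have e6 := hm v
            rw [e2, e3]
            omega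
          · intro S
            have e1 : pr P D (new ++ l) S = pr P D new S * pr P D l S := by
              unfold pr
              rw [List.map_append, List.prod_append]
            rw [e1, he S]
            ring
        · refine dt_zero P D θ _ c _ fun S => ?_
          have : X P D S (some x) u = 0 := not_good (h := (u, some x)) hgx S
          rw [this]
          ring
      have key0 : ∀ (x : Fin P.size) (e : Finset V → ℝ), (∀ S, e S = 0) →
          Dt P D θ (mL P ((u, t) :: l)) c
            (fun S => X P D S (some x) u * e S * pr P D l S) := fun x e he =>
        dt_zero P D θ _ c _ fun S => by rw [he S]; ring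
      -- one new factor
      have key1 : ∀ (x y : Fin P.size) (e : Finset V → ℝ), τ ≤ phi P D x → ¬ τ ≤ phi P D y →
          (∀ v, P.cnt v y ≤ P.cnt v x) → (∀ S, e S = X P D S t y) →
          Dt P D θ (mL P ((u, t) :: l)) c
            (fun S => X P D S (some x) u * e S * pr P D l S) := by
        intro x y e hx hy hxy he
        by_cases hgy : Good P (y, t)
        · refine key x e [(y, t)] hx (fun h' hh => ?_) (fun v => (hgy v).trans (hxy v))
            (fun v => ?_) ?_ fun S => ?_
          · rw [List.mem_singleton.1 hh]
            exact hgy
          · show mu P (y, t) v + 0 ≤ _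
            have e1 : mu P (y, t) v = P.cnt v y - cT P v t := rfl
            have := hxy v
            rw [e1]
            omega
          · have e1 : cL P D θ [(y, t)] = cost θ t.isSome (pot P D (y, t)) := by
              rw [cL_cons]
              rfl
            have h1 := pot_eq (D := D) hgy
            have h2 : phi P D (y, t).1 = phi P D y := rfl
            have h3 : ∑ v ∈ D, cT P v (y, t).2 = B := rfl
            rw [h2, h3] at h1
            have h4 := cost_one hθ t.isSome (show pot P D (y, t) + θ < Φ by omega)
            rw [e1]
            omega
          · rw [he S, pr_cons]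
            show _ = _ * 1
            rw [mul_one]
        · exact key0 x e fun S => by rw [he S]; exact not_good (h := (y, t)) hgy S
      refine combineN (fun (a : Fin P.size × Fin 3) S => X P D S (some a.1) u *
        (if a.2 = 0 then e0 P S τ D t a.1 else if a.2 = 1 then e1 P S τ D t a.1 else
          e2 P S τ D t a.1) * pr P D l S) (fun a => ?_) fun S => ?_
      · obtain ⟨x, i⟩ := a
        show Dt P D θ (mL P ((u, t) :: l)) c (fun S => X P D S (some x) u *
          (if i = 0 then e0 P S τ D t x else if i = 1 then e1 P S τ D t x else
          e2 P S τ D t x) * pr P D l S)
        by_cases hx : τ ≤ phi P D x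
        · fin_cases i
          · -- the stop
            show Dt P D θ (mL P ((u, t) :: l)) c (fun S => X P D S (some x) u *
              e0 P S τ D t x * pr P D l S)
            rcases t with _ | w
            · rcases hgate : P.gate x with ⟨w, lb⟩ | ⟨a, b⟩ | ⟨a, b⟩
              · refine key x _ [(x, none)] hx (fun h' hh => ?_) (fun v => Nat.zero_le _)
                  (fun v => ?_) ?_ fun S => ?_
                · rw [List.mem_singleton.1 hh]
                  exact good_none P x
                · show mu P (x, none) v + 0 ≤ _
                  exact le_rfl
                · have e1 : cL P D θ [(x, none)] = cost θ false (pot P D (x, none)) := by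
                    rw [cL_cons]
                    rfl
                  have h1 := pot_eq (D := D) (good_none P x)
                  have h2 : phi P D (x, (none : Option (Fin P.size))).1 = phi P D x := rfl
                  have h3 := phi_leaf (D := D) hgate
                  rw [h2] at h1
                  have h4 := cost_leaf hθ false (show θ < Φ by omega)
                    (show pot P D (x, none) ≤ θ by omega)
                  have h5 : cost θ false Φ + cL P D θ l ≤ c + 1 := hC
                  rw [e1]
                  omega
                · unfold e0
                  rw [if_pos hx, pr_cons]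
                  show lv P S x = X P D S none x * 1
                  rw [mul_one, X_leaf hgate]
                  rfl
              · refine key0 x _ fun S => ?_
                unfold e0
                rw [if_pos hx]
                exact lv_add hgate
              · refine key0 x _ fun S => ?_
                unfold e0
                rw [if_pos hx]
                exact lv_mul hgate
            · refine key0 x _ fun S => ?_
              unfold e0
              rw [if_pos hx]
              show (if x = w then (1 : ℝ) else 0) = 0
              rw [if_neg]
              rintro rfl
              have h2 : B = phi P D x := rfl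
              omega
          · -- the exit to the left
            show Dt P D θ (mL P ((u, t) :: l)) c (fun S => X P D S (some x) u *
              e1 P S τ D t x * pr P D l S)
            rcases hgate : P.gate x with ⟨w, lb⟩ | ⟨a, b⟩ | ⟨a, b⟩
            · refine key0 x _ fun S => ?_
              unfold e1
              rw [if_pos hx, hgate]
            · by_cases ha : τ ≤ phi P D a
              · refine key0 x _ fun S => ?_
                unfold e1
                rw [if_pos hx, hgate]
                exact if_pos ha
              · refine key1 x a _ hx ha (cnt_left hgate) fun S => ?_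
                unfold e1
                rw [if_pos hx, hgate]
                exact if_neg ha
            · by_cases ha : τ ≤ phi P D (hv P D a b)
              · refine key0 x _ fun S => ?_
                unfold e1
                rw [if_pos hx, hgate]
                exact if_pos ha
              · by_cases hgx : ¬ Good P (u, some x)
                · refine dt_zero P D θ _ c _ fun S => ?_
                  have : X P D S (some x) u = 0 := not_good (h := (u, some x)) hgx S
                  rw [this]
                  ring
                rw [not_not] at hgx
                by_cases hgy : Good P (hv P D a b, t)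
                · refine key x _ [(lg P D a b, none), (hv P D a b, t)] hx (fun h' hh => ?_)
                    (fun v => (hgy v).trans (cnt_hv hgate v)) (fun v => ?_) ?_ fun S => ?_
                  · rcases List.mem_cons.1 hh with rfl | hh
                    · exact good_none P _
                    · rw [List.mem_singleton.1 hh]
                      exact hgy
                  · show mu P (lg P D a b, none) v + (mu P (hv P D a b, t) v + 0) ≤ _
                    have e1 : mu P (hv P D a b, t) v = P.cnt v (hv P D a b) - cT P v t := rfl
                    have e2 : mu P (lg P D a b, none) v = P.cnt v (lg P D a b) := rfl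
                    have e3 := cnt_hl (D := D) (v := v) hgate
                    have e4 : cT P v t ≤ P.cnt v (hv P D a b) := hgy v
                    rw [e1, e2]
                    omega
                  · have e1 : cL P D θ [(lg P D a b, none), (hv P D a b, t)] =
                        cost θ false (pot P D (lg P D a b, none)) +
                          cost θ t.isSome (pot P D (hv P D a b, t)) := by
                      rw [cL_cons, cL_cons]
                      rfl
                    have h1 := pot_eq (D := D) hgy
                    have h2 : phi P D (hv P D a b, t).1 = phi P D (hv P D a b) := rfl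
                    have h3 : ∑ v ∈ D, cT P v (hv P D a b, t).2 = B := rfl
                    rw [h2, h3] at h1
                    have h1' := pot_eq (D := D) (good_none P (lg P D a b))
                    have h2' : phi P D (lg P D a b, (none : Option (Fin P.size))).1 =
                      phi P D (lg P D a b) := rfl
                    have h3' : ∑ v ∈ D, cT P v (lg P D a b, (none : Option (Fin P.size))).2 = 0 :=
                      Finset.sum_eq_zero fun _ _ => rfl
                    rw [h2', h3'] at h1'
                    have h5 := phi_hl (D := D) hgate
                    have h6 := phi_lg_le (P := P) (D := D) (a := a) (b := b)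
                    have h7 : phi P D x ≤ phi P D u := phi_mono hgx
                    have h4 := cost_two (Φ := Φ) (Φ1 := pot P D (lg P D a b, none))
                      (Φ2 := pot P D (hv P D a b, t)) hθ t.isSome (by omega) (by omega)
                      (fun hb => by
                        have hB0 : B = 0 := by
                          rcases t with _ | w
                          · exact Finset.sum_eq_zero fun _ _ => rfl
                          · simp at hb
                        omega)
                    rw [e1]
                    omega
                  · unfold e1
                    rw [if_pos hx, hgate, pr_cons, pr_cons]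
                    show (if τ ≤ phi P D (hv P D a b) then (0 : ℝ) else _) =
                      X P D S none (lg P D a b) * (X P D S t (hv P D a b) * 1)
                    rw [if_neg ha, X_none, mul_one]
                · refine key0 x _ fun S => ?_
                  unfold e1
                  rw [if_pos hx, hgate]
                  show (if τ ≤ phi P D (hv P D a b) then (0 : ℝ) else _) = 0
                  rw [if_neg ha, not_good (h := (hv P D a b, t)) hgy S, mul_zero]
          · -- the exit to the right
            show Dt P D θ (mL P ((u, t) :: l)) c (fun S => X P D S (some x) u *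
              e2 P S τ D t x * pr P D l S)
            rcases hgate : P.gate x with ⟨w, lb⟩ | ⟨a, b⟩ | ⟨a, b⟩
            · refine key0 x _ fun S => ?_
              unfold e2
              rw [if_pos hx, hgate]
            · by_cases ha : τ ≤ phi P D b
              · refine key0 x _ fun S => ?_
                unfold e2
                rw [if_pos hx, hgate]
                exact if_pos ha
              · refine key1 x b _ hx ha (cnt_right hgate) fun S => ?_
                unfold e2
                rw [if_pos hx, hgate]
                exact if_neg ha
            · refine key0 x _ fun S => ?_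
              unfold e2
              rw [if_pos hx, hgate]
        · refine key0 x _ fun S => ?_
          unfold e0 e1 e2
          rw [if_neg hx, if_neg hx, if_neg hx]
          split_ifs <;> rfl
      · rw [pr_cons]
        show X P D S t u * pr P D l S = _
        rw [hexit S, Fintype.sum_prod_type, Finset.sum_mul]
        refine Finset.sum_congr rfl fun x _ => ?_
        rw [Fin.sum_univ_three]
        simp only [if_true, one_ne_zero, if_false]
        have e20 : (2 : Fin 3) ≠ 0 := by decide
        have e21 : (2 : Fin 3) ≠ 1 := by decide
        rw [if_neg e20, if_neg e21]
        ring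

/-- **the decomposition of a circuit** whose parse trees contain each vertex at most `k` times -/
theorem dec (P : SCirc V q) (D : Finset V) (k r θ : ℕ) (hθ : 1 ≤ θ) (hq : q ≤ θ) (o : Fin P.size)
    (hk : ∀ v, P.cnt v o ≤ k) (hr1 : 1 ≤ r) (hr : 4 * (k * D.card) ≤ r * θ) :
    HasDecN (Fin P.size × Fin 3) D θ (fun _ => k) r (fun S => P.val S o) := by
  have h1 : pot P D (o, none) ≤ k * D.card := by
    unfold pot
    refine (Finset.sum_le_card_nsmul D _ k fun v _ => ?_).trans (le_of_eq ?_)
    · exact (Nat.sub_le _ _).trans (hk v)
    · rw [smul_eq_mul, mul_comm]
  have h2 : cL P D θ [(o, none)] ≤ r := by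
    rw [cL_cons]
    show cost θ false (pot P D (o, none)) + 0 ≤ r
    unfold cost
    split_ifs with h3 h4
    · omega
    · exact absurd h4 (by decide)
    · have h5 : 4 * pot P D (o, none) / θ ≤ r := by
        refine Nat.div_le_of_le_mul ?_
        rw [mul_comm θ r]
        omega
      omega
  have h3 := (dec_list P D θ hθ hq o r [(o, none)] (fun h hh => by
    rw [List.mem_singleton.1 hh]
    exact good_none P o) h2).mono (μ' := fun _ => k) fun v => by
      rw [mL_cons]
      exact (Nat.sub_le _ _).trans (hk v)
  have h4 : (fun S => P.val S o) = pr P D [(o, none)] := by
    funext S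
    rw [pr_cons]
    show _ = X P D S none o * 1
    rw [mul_one, X_none]
  rw [h4]
  exact h3

end Pool.Agent.L5helper60.KC
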