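import Pool.Agent.L5helper87.RK.WHyper

/-!
# Circuits with sums and products: definitions and elementary properties
-/

set_option autoImplicit false
set_option linter.unusedSectionVars false

open Finset

namespace Pool.Agent.L5helper60.KC

open Pool.Agent.L5helper60.DN Pool.Agent.L5helper87.RK

/-- The gates: a leaf with a set `A` of vertices and a function `f`, a sum of two gates, and a product of
two gates. -/
inductive Gt (V : Type) (n : ℕ)
  | leaf (A : Finset V) (f : Finset V → ℝ)
  | add (a b : Fin n)
  | mul (a b : Fin n)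

/-- Circuits with sums and products whose leaves are nonnegative functions of at most `q` vertices each
(those of the set `A` of the leaf); the gates are numbered so that the inputs of a gate have smaller
numbers. -/
structure SCirc (V : Type) (q : ℕ) where
  size : ℕ
  gate : Fin size → Gt V size
  leaf_card : ∀ i A f, gate i = .leaf A f → A.card ≤ q
  leaf_nonneg : ∀ i A f, gate i = .leaf A f → ∀ S, 0 ≤ f S
  leaf_congr : ∀ i A f, gate i = .leaf A f →
    ∀ S S' : Finset V, (∀ v ∈ A, v ∈ S ↔ v ∈ S') → f S = f S'
  add_lt : ∀ i a b, gate i = .add a b → a < i ∧ b < i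
  mul_lt : ∀ i a b, gate i = .mul a b → a < i ∧ b < i

variable {V : Type} {q : ℕ}

/-- the value of the gate for the set `S` -/
noncomputable def SCirc.val (P : SCirc V q) (S : Finset V) (i : Fin P.size) : ℝ :=
  match h : P.gate i with
  | .leaf _ f => f S
  | .add a b => P.val S a + P.val S b
  | .mul a b => P.val S a * P.val S b
termination_by i
decreasing_by
  · exact (P.add_lt i a b h).1
  · exact (P.add_lt i a b h).2
  · exact (P.mul_lt i a b h).1
  · exact (P.mul_lt i a b h).2

/-- the largest number of the leaves whose sets contain `v` in a parse tree of the gate: at a sum the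
larger one of the two numbers is taken, at a product their sum -/
noncomputable def SCirc.cnt [DecidableEq V] (P : SCirc V q) (v : V) (i : Fin P.size) : ℕ :=
  match h : P.gate i with
  | .leaf A _ => if v ∈ A then 1 else 0
  | .add a b => max (P.cnt v a) (P.cnt v b)
  | .mul a b => P.cnt v a + P.cnt v b
termination_by i
decreasing_by
  · exact (P.add_lt i a b h).1
  · exact (P.add_lt i a b h).2
  · exact (P.mul_lt i a b h).1
  · exact (P.mul_lt i a b h).2

theorem val_leaf {P : SCirc V q} {S : Finset V} {i : Fin P.size} {A : Finset V}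
    {f : Finset V → ℝ} (h : P.gate i = .leaf A f) : P.val S i = f S := by
  rw [SCirc.val]
  split
  · rename_i h'; cases (h.symm.trans h'); rfl
  · rename_i h'; cases (h.symm.trans h')
  · rename_i h'; cases (h.symm.trans h')

theorem val_add {P : SCirc V q} {S : Finset V} {i a b : Fin P.size}
    (h : P.gate i = .add a b) : P.val S i = P.val S a + P.val S b := by
  rw [SCirc.val]
  split
  · rename_i h'; cases (h.symm.trans h')
  · rename_i h'; cases (h.symm.trans h'); rfl
  · rename_i h'; cases (h.symm.trans h')

theorem val_mul {P : SCirc V q} {S : Finset V} {i a b : Fin P.size}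
    (h : P.gate i = .mul a b) : P.val S i = P.val S a * P.val S b := by
  rw [SCirc.val]
  split
  · rename_i h'; cases (h.symm.trans h')
  · rename_i h'; cases (h.symm.trans h')
  · rename_i h'; cases (h.symm.trans h'); rfl

section cnt

variable [DecidableEq V]

theorem cnt_leaf {P : SCirc V q} {v : V} {i : Fin P.size} {A : Finset V}
    {f : Finset V → ℝ} (h : P.gate i = .leaf A f) : P.cnt v i = if v ∈ A then 1 else 0 := by
  rw [SCirc.cnt]
  split
  · rename_i h'; cases (h.symm.trans h'); rfl
  · rename_i h'; cases (h.symm.trans h')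
  · rename_i h'; cases (h.symm.trans h')

theorem cnt_add {P : SCirc V q} {v : V} {i a b : Fin P.size}
    (h : P.gate i = .add a b) : P.cnt v i = max (P.cnt v a) (P.cnt v b) := by
  rw [SCirc.cnt]
  split
  · rename_i h'; cases (h.symm.trans h')
  · rename_i h'; cases (h.symm.trans h'); rfl
  · rename_i h'; cases (h.symm.trans h')

theorem cnt_mul {P : SCirc V q} {v : V} {i a b : Fin P.size}
    (h : P.gate i = .mul a b) : P.cnt v i = P.cnt v a + P.cnt v b := by
  rw [SCirc.cnt]
  split
  · rename_i h'; cases (h.symm.trans h')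
  · rename_i h'; cases (h.symm.trans h')
  · rename_i h'; cases (h.symm.trans h'); rfl

/-- the sum of the numbers of the leaves over the vertices in `D` -/
noncomputable def phi (P : SCirc V q) (D : Finset V) (i : Fin P.size) : ℕ := ∑ v ∈ D, P.cnt v i

/-- the input of a product with the larger sum -/
noncomputable def hv (P : SCirc V q) (D : Finset V) (a b : Fin P.size) : Fin P.size :=
  if phi P D b ≤ phi P D a then a else b

/-- the other input of a product -/
noncomputable def lg (P : SCirc V q) (D : Finset V) (a b : Fin P.size) : Fin P.size :=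
  if phi P D b ≤ phi P D a then b else a

theorem hv_lt {P : SCirc V q} {D : Finset V} {i a b : Fin P.size} (h : P.gate i = .mul a b) :
    hv P D a b < i := by
  unfold hv
  split_ifs
  · exact (P.mul_lt i a b h).1
  · exact (P.mul_lt i a b h).2

theorem lg_lt {P : SCirc V q} {D : Finset V} {i a b : Fin P.size} (h : P.gate i = .mul a b) :
    lg P D a b < i := by
  unfold lg
  split_ifs
  · exact (P.mul_lt i a b h).2
  · exact (P.mul_lt i a b h).1

theorem val_hl {P : SCirc V q} {D : Finset V} {S : Finset V} {i a b : Fin P.size}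
    (h : P.gate i = .mul a b) : P.val S i = P.val S (lg P D a b) * P.val S (hv P D a b) := by
  rw [val_mul h]
  unfold lg hv
  split_ifs
  · ring
  · ring

theorem cnt_hl {P : SCirc V q} {D : Finset V} {v : V} {i a b : Fin P.size}
    (h : P.gate i = .mul a b) : P.cnt v i = P.cnt v (lg P D a b) + P.cnt v (hv P D a b) := by
  rw [cnt_mul h]
  unfold lg hv
  split_ifs
  · ring
  · ring

theorem phi_hl {P : SCirc V q} {D : Finset V} {i a b : Fin P.size}
    (h : P.gate i = .mul a b) : phi P D i = phi P D (lg P D a b) + phi P D (hv P D a b) := by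
  conv_lhs => unfold phi
  rw [Finset.sum_congr rfl fun v _ => cnt_hl (D := D) (v := v) h, Finset.sum_add_distrib]
  rfl

theorem phi_lg_le {P : SCirc V q} {D : Finset V} {a b : Fin P.size} :
    phi P D (lg P D a b) ≤ phi P D (hv P D a b) := by
  unfold lg hv
  split_ifs with h
  · exact h
  · exact (not_le.1 h).le

theorem phi_mono {P : SCirc V q} {D : Finset V} {i a : Fin P.size}
    (h : ∀ v, P.cnt v a ≤ P.cnt v i) : phi P D a ≤ phi P D i :=
  Finset.sum_le_sum fun v _ => h v

theorem phi_leaf {P : SCirc V q} {D : Finset V} {i : Fin P.size} {A : Finset V}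
    {f : Finset V → ℝ} (h : P.gate i = .leaf A f) : phi P D i ≤ q := by
  unfold phi
  rw [Finset.sum_congr rfl fun v _ => cnt_leaf (v := v) h, ← Finset.card_filter]
  exact (card_le_card fun v hv => (mem_filter.1 hv).2).trans (P.leaf_card i A f h)

/-! ### Computations with a target -/

/-- the values of the leaves -/
noncomputable def lv (P : SCirc V q) (S : Finset V) (i : Fin P.size) : ℝ :=
  match P.gate i with
  | .leaf _ f => f S
  | .add _ _ => 0
  | .mul _ _ => 0

/-- the source: the values of the leaves, or 1 at the gate `w` -/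
noncomputable def src (P : SCirc V q) (S : Finset V) : Option (Fin P.size) → Fin P.size → ℝ
  | none => lv P S
  | some w => fun x => if x = w then 1 else 0

/-- the total weight of the parts of the parse trees of the gate above the target, which lies on the
path which always goes to the larger input of a product -/
noncomputable def X (P : SCirc V q) (D S : Finset V) (t : Option (Fin P.size)) (i : Fin P.size) :
    ℝ :=
  match h : P.gate i with
  | .leaf _ _ => src P S t i
  | .add a b => src P S t i + (X P D S t a + X P D S t b)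
  | .mul a b => src P S t i + P.val S (lg P D a b) * X P D S t (hv P D a b)
termination_by i
decreasing_by
  · exact (P.add_lt i a b h).1
  · exact (P.add_lt i a b h).2
  · exact hv_lt h

theorem X_leaf {P : SCirc V q} {D S : Finset V} {t : Option (Fin P.size)} {i : Fin P.size}
    {A : Finset V} {f : Finset V → ℝ} (h : P.gate i = .leaf A f) : X P D S t i = src P S t i := by
  rw [X]
  split
  · rfl
  · rename_i h'; cases (h.symm.trans h')
  · rename_i h'; cases (h.symm.trans h')

theorem X_add {P : SCirc V q} {D S : Finset V} {t : Option (Fin P.size)} {i a b : Fin P.size}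
    (h : P.gate i = .add a b) :
    X P D S t i = src P S t i + (X P D S t a + X P D S t b) := by
  rw [X]
  split
  · rename_i h'; cases (h.symm.trans h')
  · rename_i h'; cases (h.symm.trans h'); rfl
  · rename_i h'; cases (h.symm.trans h')

theorem X_mul {P : SCirc V q} {D S : Finset V} {t : Option (Fin P.size)} {i a b : Fin P.size}
    (h : P.gate i = .mul a b) :
    X P D S t i = src P S t i + P.val S (lg P D a b) * X P D S t (hv P D a b) := by
  rw [X]
  split
  · rename_i h'; cases (h.symm.trans h')
  · rename_i h'; cases (h.symm.trans h')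
  · rename_i h'; cases (h.symm.trans h'); rfl

theorem lv_leaf {P : SCirc V q} {S : Finset V} {i : Fin P.size} {A : Finset V}
    {f : Finset V → ℝ} (h : P.gate i = .leaf A f) : lv P S i = f S := by
  unfold lv
  rw [h]

theorem lv_add {P : SCirc V q} {S : Finset V} {i a b : Fin P.size}
    (h : P.gate i = .add a b) : lv P S i = 0 := by
  unfold lv
  rw [h]

theorem lv_mul {P : SCirc V q} {S : Finset V} {i a b : Fin P.size}
    (h : P.gate i = .mul a b) : lv P S i = 0 := by
  unfold lv
  rw [h]

theorem X_none (P : SCirc V q) (D S : Finset V) (u : Fin P.size) :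
    X P D S none u = P.val S u := by
  refine WellFoundedLT.induction (motive := fun u => X P D S none u = P.val S u) u fun u ih => ?_
  rcases h : P.gate u with ⟨w, t⟩ | ⟨a, b⟩ | ⟨a, b⟩
  · rw [X_leaf h, val_leaf h]
    exact lv_leaf h
  · rw [X_add h, val_add h, ih a (P.add_lt u a b h).1, ih b (P.add_lt u a b h).2]
    show lv P S u + _ = _
    rw [lv_add h, zero_add]
  · rw [X_mul h, val_hl (D := D) h, ih _ (hv_lt h)]
    show lv P S u + _ = _
    rw [lv_mul h, zero_add]

theorem val_nonneg (P : SCirc V q) (S : Finset V) (u : Fin P.size) : 0 ≤ P.val S u := by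
  refine WellFoundedLT.induction (motive := fun u => 0 ≤ P.val S u) u fun u ih => ?_
  rcases h : P.gate u with ⟨w, t⟩ | ⟨a, b⟩ | ⟨a, b⟩
  · rw [val_leaf h]
    exact P.leaf_nonneg u w t h S
  · rw [val_add h]
    exact add_nonneg (ih a (P.add_lt u a b h).1) (ih b (P.add_lt u a b h).2)
  · rw [val_mul h]
    exact mul_nonneg (ih a (P.mul_lt u a b h).1) (ih b (P.mul_lt u a b h).2)

theorem src_nonneg (P : SCirc V q) (S : Finset V) (t : Option (Fin P.size)) (u : Fin P.size) :
    0 ≤ src P S t u := by
  rcases t with _ | w
  · show 0 ≤ lv P S u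
    rcases h : P.gate u with ⟨w, t⟩ | ⟨a, b⟩ | ⟨a, b⟩
    · rw [lv_leaf h]
      exact P.leaf_nonneg u w t h S
    · rw [lv_add h]
    · rw [lv_mul h]
  · show 0 ≤ if u = w then (1 : ℝ) else 0
    split_ifs <;> norm_num

theorem X_nonneg (P : SCirc V q) (D S : Finset V) (t : Option (Fin P.size)) (u : Fin P.size) :
    0 ≤ X P D S t u := by
  refine WellFoundedLT.induction (motive := fun u => 0 ≤ X P D S t u) u fun u ih => ?_
  rcases h : P.gate u with ⟨w, l⟩ | ⟨a, b⟩ | ⟨a, b⟩
  · rw [X_leaf h]
    exact src_nonneg _ _ _ _
  · rw [X_add h]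
    exact add_nonneg (src_nonneg _ _ _ _)
      (add_nonneg (ih a (P.add_lt u a b h).1) (ih b (P.add_lt u a b h).2))
  · rw [X_mul h]
    exact add_nonneg (src_nonneg _ _ _ _) (mul_nonneg (val_nonneg _ _ _) (ih _ (hv_lt h)))

/-- the numbers of the leaves below the target -/
noncomputable def cT (P : SCirc V q) (v : V) : Option (Fin P.size) → ℕ
  | none => 0
  | some w => P.cnt v w

theorem src_ne {P : SCirc V q} {S : Finset V} {t : Option (Fin P.size)} {u : Fin P.size}
    (h : src P S t u ≠ 0) (v : V) : cT P v t ≤ P.cnt v u := by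
  rcases t with _ | w
  · exact Nat.zero_le _
  · have h1 : (if u = w then (1 : ℝ) else 0) ≠ 0 := h
    by_cases h2 : u = w
    · rw [h2]
      exact le_rfl
    · rw [if_neg h2] at h1
      exact absurd rfl h1

theorem X_ne (P : SCirc V q) (D S : Finset V) (t : Option (Fin P.size)) (v : V)
    (u : Fin P.size) : X P D S t u ≠ 0 → cT P v t ≤ P.cnt v u := by
  refine WellFoundedLT.induction (motive := fun u => X P D S t u ≠ 0 → cT P v t ≤ P.cnt v u) u
    fun u ih => ?_
  rcases h : P.gate u with ⟨w, l⟩ | ⟨a, b⟩ | ⟨a, b⟩
  · rw [X_leaf h]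
    exact fun h1 => src_ne h1 v
  · rw [X_add h]
    intro h1
    by_cases h2 : src P S t u = 0
    · rw [cnt_add h]
      by_cases h3 : X P D S t a = 0
      · have h4 : X P D S t b ≠ 0 := fun h4 => h1 (by rw [h2, h3, h4]; norm_num)
        exact (ih b (P.add_lt u a b h).2 h4).trans (le_max_right _ _)
      · exact (ih a (P.add_lt u a b h).1 h3).trans (le_max_left _ _)
    · exact src_ne h2 v
  · rw [X_mul h]
    intro h1
    by_cases h2 : src P S t u = 0
    · rw [cnt_hl (D := D) h]
      have h3 : X P D S t (hv P D a b) ≠ 0 := fun h4 => h1 (by rw [h2, h4]; norm_num)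
      exact (ih _ (hv_lt h) h3).trans (Nat.le_add_left _ _)
    · exact src_ne h2 v

theorem val_congr (P : SCirc V q) (S S' : Finset V) (u : Fin P.size) :
    (∀ v, 0 < P.cnt v u → (v ∈ S ↔ v ∈ S')) → P.val S u = P.val S' u := by
  refine WellFoundedLT.induction (motive := fun u => (∀ v, 0 < P.cnt v u → (v ∈ S ↔ v ∈ S')) →
    P.val S u = P.val S' u) u fun u ih => ?_
  rcases h : P.gate u with ⟨w, l⟩ | ⟨a, b⟩ | ⟨a, b⟩
  · intro h1
    rw [val_leaf h, val_leaf h]
    refine P.leaf_congr u w l h S S' fun v hv => h1 v ?_
    rw [cnt_leaf h, if_pos hv]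
    exact one_pos
  · intro h1
    rw [val_add h, val_add h, ih a (P.add_lt u a b h).1 fun v hv => h1 v ?_,
      ih b (P.add_lt u a b h).2 fun v hv => h1 v ?_]
    · rw [cnt_add h]
      omega
    · rw [cnt_add h]
      omega
  · intro h1
    rw [val_mul h, val_mul h, ih a (P.mul_lt u a b h).1 fun v hv => h1 v ?_,
      ih b (P.mul_lt u a b h).2 fun v hv => h1 v ?_]
    · rw [cnt_mul h]
      omega
    · rw [cnt_mul h]
      omega

theorem src_congr (P : SCirc V q) (S S' : Finset V) (t : Option (Fin P.size)) (u : Fin P.size)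
    (h : ∀ v, cT P v t < P.cnt v u → (v ∈ S ↔ v ∈ S')) : src P S t u = src P S' t u := by
  rcases t with _ | w
  · show lv P S u = lv P S' u
    rcases h1 : P.gate u with ⟨w, l⟩ | ⟨a, b⟩ | ⟨a, b⟩
    · rw [lv_leaf h1, lv_leaf h1]
      refine P.leaf_congr u w l h1 S S' fun v hv => h v ?_
      rw [cnt_leaf h1, if_pos hv]
      exact one_pos
    · rw [lv_add h1, lv_add h1]
    · rw [lv_mul h1, lv_mul h1]
  · rfl

theorem X_congr (P : SCirc V q) (D S S' : Finset V) (t : Option (Fin P.size)) (u : Fin P.size) :
    (∀ v, cT P v t < P.cnt v u → (v ∈ S ↔ v ∈ S')) → X P D S t u = X P D S' t u := by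
  refine WellFoundedLT.induction (motive := fun u => (∀ v, cT P v t < P.cnt v u → (v ∈ S ↔ v ∈ S')) →
    X P D S t u = X P D S' t u) u fun u ih => ?_
  rcases h : P.gate u with ⟨w, l⟩ | ⟨a, b⟩ | ⟨a, b⟩
  · intro h1
    rw [X_leaf h, X_leaf h, src_congr P S S' t u h1]
  · intro h1
    rw [X_add h, X_add h, src_congr P S S' t u h1,
      ih a (P.add_lt u a b h).1 fun v hv => h1 v ?_, ih b (P.add_lt u a b h).2 fun v hv => h1 v ?_]
    · rw [cnt_add h]
      omega
    · rw [cnt_add h]
      omega
  · intro h1
    rw [X_mul h, X_mul h, src_congr P S S' t u h1]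
    have e1 : X P D S t (hv P D a b) = X P D S' t (hv P D a b) := by
      refine ih _ (hv_lt h) fun v hv => h1 v ?_
      rw [cnt_hl (D := D) h]
      omega
    by_cases h2 : X P D S' t (hv P D a b) = 0
    · rw [e1, h2, mul_zero, mul_zero]
    · have e2 : P.val S (lg P D a b) = P.val S' (lg P D a b) := by
        refine val_congr P S S' _ fun v hv => h1 v ?_
        have := X_ne P D S' t v _ h2
        rw [cnt_hl (D := D) h]
        omega
      rw [e1, e2]

end cnt

end Pool.Agent.L5helper60.KC
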