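import Pool.Agent.L5helper60.KC.Dec

/-!
# The hypergraphs and the bound for circuits in which parse trees contain each vertex few times
-/

set_option autoImplicit false
set_option linter.unusedSectionVars false

open Finset

namespace Pool.Agent.L5helper60.KC

open Pool.Agent.L5helper60.DN Pool.Agent.L5helper87.RK Pool.Agent.L5helper18.DD

theorem hyper_gen (k m C1 P K1 K2 : ℕ) (hk1 : 1 ≤ k)
    (hm : (1 - 4 / (7 * ((8 * 4 ^ k : ℕ) : ℝ) ^ 4)) ^ m ≤ 1 / 64)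
    (hC : 2 * (4 * m + 2) ^ 2 ≤ C1) (hC2 : 8 * 4 ^ k ≤ C1)
    (hP : 64 * (2 * C1 + 4) ≤ P) (hK1 : C1 + P ≤ K1) (hK2 : 4 * aN (Fin P) m ≤ 2 ^ K2)
    (hK2' : 1 ≤ K2) (j : ℕ) :
    ∃ (V : Type) (_ : Fintype V) (_ : DecidableEq V) (H : Finset (Finset V)),
    Fintype.card V ≤ K1 * 4 ^ j ∧ H.card + (Tr H).ncard ≤ 2 ^ (2 * K2 * 2 ^ j) ∧
    (∀ (R : SCirc V (4 ^ j)) (o : Fin R.size) (a : ℝ), (∀ v, R.cnt v o ≤ k) → 0 < a →
      (∀ S, R.val S o = a * ind (IsTransversal H S)) ∨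
        (∀ S, R.val S o = a * ind (¬ IsTransversal H S)) →
      2 ^ 4 ^ j ≤ (3 * R.size) ^ (16 * k * (k + 1))) ∧
    ∀ (R : WProg V) (o : Fin R.size) (a : ℝ), WReadTimes R k o → 0 < a →
      (∀ S, R.val S o = a * ind (IsTransversal H S)) ∨
        (∀ S, R.val S o = a * ind (¬ IsTransversal H S)) →
      2 ^ 4 ^ j ≤ (R.size + Nat.card (Arc R) + 1) ^ (4 * k * (k + 1)) := by
  classical
  have hP0 : 0 < P := by omega
  obtain ⟨T, hT⟩ := dec_ge k m C1 P hm hC hC2 hP j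
  have hne : Nonempty (Fin P) := ⟨⟨0, hP0⟩⟩
  obtain ⟨H, h1, h2, h3⟩ := (FF_rep j T).hyper
  have h4 : 1 ≤ 4 ^ j := Nat.one_le_pow _ _ (by norm_num)
  have hk4 : k + 1 ≤ 4 ^ k := by
    have := Nat.lt_pow_self (n := k) (show 1 < 4 by norm_num)
    omega
  have hcX : Fintype.card (Lf j × Fin C1) = 4 ^ j * C1 := by
    rw [Fintype.card_prod, card_Lf, Fintype.card_fin]
  obtain ⟨n, hn⟩ : ∃ n, n = 4 ^ j * C1 := ⟨_, rfl⟩
  have hn0 : 4 ^ j * (8 * 4 ^ k) ≤ n := by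
    rw [hn]
    exact Nat.mul_le_mul_left _ hC2
  have hn1 : 8 * 4 ^ k ≤ n := by
    rw [hn]
    exact hC2.trans (Nat.le_mul_of_pos_left _ (by omega))
  have hdiv : 2 * (k + 1) * (n / (2 * (k + 1))) ≤ n := Nat.mul_div_le _ _
  have hdiv2 : n < 2 * (k + 1) * (n / (2 * (k + 1)) + 1) :=
    Nat.lt_mul_div_succ n (by omega)
  have hq : 4 ^ j ≤ n / (2 * (k + 1)) := by
    rw [Nat.le_div_iff_mul_le (by omega)]
    refine le_trans (Nat.mul_le_mul_left _ ?_) hn0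
    omega
  have hr : k * n ≤ 4 * k * (k + 1) * (n / (2 * (k + 1))) := by
    have e1 : n ≤ 4 * (k + 1) * (n / (2 * (k + 1))) := by
      set q := n / (2 * (k + 1))
      nlinarith
    calc k * n ≤ k * (4 * (k + 1) * (n / (2 * (k + 1)))) := Nat.mul_le_mul_left _ e1
      _ = _ := by ring
  refine ⟨(Lf j × Fin C1) ⊕ Lf j × Fin P, inferInstance, inferInstance, H, ?_, ?_,
    fun R o a hk ha hR => ?_, fun R o a hk ha hR => ?_⟩
  · rw [Fintype.card_sum, Fintype.card_prod, Fintype.card_prod, card_Lf, Fintype.card_fin,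
      Fintype.card_fin]
    calc 4 ^ j * C1 + 4 ^ j * P = (C1 + P) * 4 ^ j := by ring
      _ ≤ _ := Nat.mul_le_mul_right _ hK1
  · have hTr : (Tr H).ncard ≤ (4 * aN (Fin P) m) ^ 2 ^ j := by
      have hfin : (Tr H).Finite := Set.toFinite _
      rw [← hfin.cast_ncard_eq] at h2
      exact_mod_cast h2
    have h5 : (4 * aN (Fin P) m) ^ 2 ^ j ≤ 2 ^ (K2 * 2 ^ j) := by
      rw [pow_mul]
      exact Nat.pow_le_pow_left hK2 _
    have h7 : 2 ^ (K2 * 2 ^ j) * 2 ≤ 2 ^ (2 * K2 * 2 ^ j) := by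
      rw [← pow_succ]
      refine Nat.pow_le_pow_right (by norm_num) ?_
      have e2 : 1 ≤ K2 * 2 ^ j := Nat.mul_pos hK2' (by positivity)
      have e3 : 2 * K2 * 2 ^ j = K2 * 2 ^ j + K2 * 2 ^ j := by ring
      omega
    calc H.card + (Tr H).ncard ≤ 2 ^ (K2 * 2 ^ j) + 2 ^ (K2 * 2 ^ j) :=
          add_le_add (h1.trans h5) (hTr.trans h5)
      _ = 2 ^ (K2 * 2 ^ j) * 2 := by ring
      _ ≤ _ := h7
  · have hr4 : 4 * (k * (dat (Lf j) (Fin P) (Lf j × Fin C1)).card) ≤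
        16 * k * (k + 1) * (n / (2 * (k + 1))) := by
      rw [card_dat, hcX, ← hn]
      calc 4 * (k * n) ≤ 4 * (4 * k * (k + 1) * (n / (2 * (k + 1)))) := Nat.mul_le_mul_left _ hr
        _ = _ := by ring
    have hr1 : 1 ≤ 16 * k * (k + 1) := by
      have : 0 < 16 * k * (k + 1) := by positivity
      exact this
    have hdec := dec R (dat (Lf j) (Fin P) (Lf j × Fin C1)) k (16 * k * (k + 1))
      (n / (2 * (k + 1))) (h4.trans hq) hq o hk hr1 hr4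
    have ha' : a * a⁻¹ = 1 := mul_inv_cancel₀ ha.ne'
    have h6 := hT (Fin R.size × Fin 3) (16 * k * (k + 1)) (n / (2 * (k + 1))) _
      (hdec.scale a⁻¹ (inv_nonneg.2 ha.le)) (by rw [← hn]; exact hdiv)
      (hR.imp (fun h S => by rw [h S, ind_congr (h3 S), mul_right_comm, ha', one_mul]) fun h S => by
        rw [h S, ind_congr (not_congr (h3 S)), mul_right_comm, ha', one_mul])
    rwa [Fintype.card_prod, Fintype.card_fin, Fintype.card_fin, mul_comm R.size 3] at h6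
  · have hdec := wdecomp R o k (4 * k * (k + 1)) (n / (2 * (k + 1)))
      (dat (Lf j) (Fin P) (Lf j × Fin C1)) hk (by rw [card_dat, hcX, ← hn]; exact hr)
    have ha' : a * a⁻¹ = 1 := mul_inv_cancel₀ ha.ne'
    have h6 := hT (Cr R) (4 * k * (k + 1)) (n / (2 * (k + 1))) _
      (hdec.scale a⁻¹ (inv_nonneg.2 ha.le)) (by rw [← hn]; exact hdiv)
      (hR.imp (fun h S => by rw [h S, ind_congr (h3 S), mul_right_comm, ha', one_mul]) fun h S => by
        rw [h S, ind_congr (not_congr (h3 S)), mul_right_comm, ha', one_mul])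
    rwa [card_Cr] at h6

/-- **The hypergraphs.** -/
theorem exists_hyper (k : ℕ) (hk1 : 1 ≤ k) (j : ℕ) : ∃ (V : Type) (_ : Fintype V)
    (_ : DecidableEq V) (H : Finset (Finset V)), Fintype.card V ≤ 2 ^ (16 * k + 46) * 4 ^ j ∧
    H.card + (Tr H).ncard ≤ 2 ^ (2 * 2 ^ (8 * k + 18) * 2 ^ j) ∧
    (∀ (R : SCirc V (4 ^ j)) (o : Fin R.size) (a : ℝ), (∀ v, R.cnt v o ≤ k) → 0 < a →
      (∀ S, R.val S o = a * ind (IsTransversal H S)) ∨
        (∀ S, R.val S o = a * ind (¬ IsTransversal H S)) →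
      2 ^ 4 ^ j ≤ (3 * R.size) ^ (16 * k * (k + 1))) ∧
    ∀ (R : WProg V) (o : Fin R.size) (a : ℝ), WReadTimes R k o → 0 < a →
      (∀ S, R.val S o = a * ind (IsTransversal H S)) ∨
        (∀ S, R.val S o = a * ind (¬ IsTransversal H S)) →
      2 ^ 4 ^ j ≤ (R.size + Nat.card (Arc R) + 1) ^ (4 * k * (k + 1)) := by
  obtain ⟨m, C1, P, h1, h2, h3, h4, h5, h6⟩ := numbers k
  exact hyper_gen k m C1 P _ _ hk1 h1 h2 h3 h4 h5 h6 (Nat.one_le_two_pow) j

end Pool.Agent.L5helper60.KC
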